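import Pool.Agent.X135.JC.G

/-! MP_08d8ea_nt, Q1, negated form: an admissible curve `y^p = x (a - x)^k` and a prime `l` as in the
question for which the group of `F_l`-points of the Jacobian has even order. -/

open Polynomial

namespace Pool.Agent.Results.MP_08d8ea_nt.EvenOrder

/-- The polynomial `T (a - T)^k - y^p` in the variable `T` over the field `F(y)`. Adjoining a root `x` of
it to `F(y)` gives the function field over `F` of the curve `y^p = x (a - x)^k`. -/
noncomputable def curvePoly (F : Type) [Field F] (p k : ℕ) (a : F) : (RatFunc F)[X] :=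
  X * (C (RatFunc.C a) - X) ^ k - C (RatFunc.X ^ p)

/-- The integral closure of `F[y]` in the function field of `y^p = x (a - x)^k`: the ring of the
functions without a pole at the points where `y` is finite. -/
noncomputable abbrev AffineRing (F : Type) [Field F] (p k : ℕ) (a : F)
    [Fact (Irreducible (curvePoly F p k a))] : Type :=
  FunctionField.ringOfIntegers F (AdjoinRoot (curvePoly F p k a))

/-- Exactly one valuation ring `V` of the function field does not contain `y` (the function `y` has
exactly one pole), and every element of `V` is congruent to a constant modulo the maximal ideal of `V`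
(the pole is a rational point). -/
def OneRationalPole (F : Type) [Field F] (p k : ℕ) (a : F)
    [Fact (Irreducible (curvePoly F p k a))] : Prop :=
  ∃ V : ValuationSubring (AdjoinRoot (curvePoly F p k a)),
    algebraMap (RatFunc F) (AdjoinRoot (curvePoly F p k a)) RatFunc.X ∉ V ∧
    (∀ g ∈ V, ∃ c : F, V.valuation
      (g - algebraMap (RatFunc F) (AdjoinRoot (curvePoly F p k a)) (RatFunc.C c)) < 1) ∧
    ∀ W : ValuationSubring (AdjoinRoot (curvePoly F p k a)),
      algebraMap (RatFunc F) (AdjoinRoot (curvePoly F p k a)) RatFunc.X ∉ W → W = V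

theorem transfer (q : (RatFunc (ZMod 199))[X]) (hq : q = X135.JC.cub) :
    ∃ _ : Fact (Irreducible q),
      (∃ V : ValuationSubring (AdjoinRoot q),
        algebraMap (RatFunc (ZMod 199)) (AdjoinRoot q) RatFunc.X ∉ V ∧
        (∀ g ∈ V, ∃ c : ZMod 199, V.valuation
          (g - algebraMap (RatFunc (ZMod 199)) (AdjoinRoot q) (RatFunc.C c)) < 1) ∧
        ∀ W : ValuationSubring (AdjoinRoot q),
          algebraMap (RatFunc (ZMod 199)) (AdjoinRoot q) RatFunc.X ∉ W → W = V) ∧
      Finite (ClassGroup (FunctionField.ringOfIntegers (ZMod 199) (AdjoinRoot q))) ∧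
      Even (Nat.card (ClassGroup (FunctionField.ringOfIntegers (ZMod 199) (AdjoinRoot q)))) := by
  subst hq
  exact ⟨X135.JC.firr, X135.JC.place, X135.JC.even_card⟩

theorem result : ∃ (p k l : ℕ) (a : ℤ) (_ : Fact l.Prime),
    p.Prime ∧ 5 < p ∧ 2 ≤ k ∧ k ≤ p - 3 ∧ k ≠ (p - 1) / 2 ∧
    Even a ∧ (∀ q : ℕ, q.Prime → ¬ (q : ℤ) ^ p ∣ a) ∧
    l ≡ 1 [MOD p] ∧ ¬ (l : ℤ) ∣ a ∧ (¬ ∃ b : ZMod l, b ^ p = (a : ZMod l)) ∧
    ∃ _ : Fact (Irreducible (curvePoly (ZMod l) p k (a : ZMod l))),
      OneRationalPole (ZMod l) p k (a : ZMod l) ∧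
      Finite (ClassGroup (AffineRing (ZMod l) p k (a : ZMod l))) ∧
      Even (Nat.card (ClassGroup (AffineRing (ZMod l) p k (a : ZMod l)))) := by
  refine ⟨11, 2, 199, 8, X135.JC.p199, by norm_num, by norm_num, by norm_num, by norm_num, by norm_num,
    by decide, ?_, by decide, by norm_num, ?_, ?_⟩
  · intro q hq h
    have h1 : (q : ℤ) ^ 11 ≤ 8 := Int.le_of_dvd (by norm_num) h
    have h2 : (2 : ℤ) ^ 11 ≤ (q : ℤ) ^ 11 := by
      have := hq.two_le
      exact pow_le_pow_left₀ (by norm_num) (by exact_mod_cast this) 11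
    norm_num at h2
    omega
  · rintro ⟨b, hb⟩
    have hb' : b ^ 11 = (8 : ZMod 199) := hb
    have h0 : b ≠ 0 := by
      rintro rfl
      rw [zero_pow (by norm_num)] at hb'
      exact absurd hb' (by decide)
    have h1 : b ^ 198 = 1 := by
      have := ZMod.pow_card_sub_one_eq_one h0
      exact this
    have h2 : (8 : ZMod 199) ^ 18 = 1 := by
      rw [← hb', ← pow_mul]; exact h1
    exact absurd h2 (by decide +kernel)
  · exact transfer (curvePoly (ZMod 199) 11 2 ((8 : ℤ) : ZMod 199)) rfl

end Pool.Agent.Results.MP_08d8ea_nt.EvenOrder
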